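import Mathlib
import Pool.Agent.R859.DM.Ext

/-!
# An extension of holonomic D-modules which is not holonomic (positive characteristic)

For every prime `p`, every field `k` of characteristic `p` and `n = 1`, the holonomic module
`R = k[x]` over the ring `DD k 1` of differential operators has a self-extension
`0 → R → M → R → 0` with `M` not holonomic.
-/

set_option autoImplicit false

namespace Pool.Agent.Results.MP_66748c_al.NonHolonomicExtension

open Pool.Agent.R859.DM

theorem result (p : ℕ) [Fact p.Prime] (k : Type) [Field k] [CharP k p] :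
    ∃ (M : Type) (_ : AddCommGroup M) (_ : Module k M) (_ : Module (DD k 1) M)
      (_ : IsScalarTower k (DD k 1) M)
      (f : Rn k 1 →ₗ[DD k 1] M) (g : M →ₗ[DD k 1] Rn k 1),
      Function.Injective f ∧ Function.Exact f g ∧ Function.Surjective g ∧
        IsHolonomic k 1 (Rn k 1) ∧ ¬ IsHolonomic k 1 M := by
  refine ⟨MM k p, inferInstance, inferInstance, inferInstance, inferInstance, incl k p, proj k p,
    ?_, ?_, ?_, isHolonomic_poly, not_isHolonomic⟩
  · intro a b h
    exact (mk_inj h).1
  · intro z
    obtain ⟨a, b, rfl⟩ := exists_mk z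
    constructor
    · intro h
      have hb : b = 0 := h
      exact ⟨a, by rw [hb]; rfl⟩
    · rintro ⟨c, hc⟩
      exact ((mk_inj hc).2).symm
  · intro g
    exact ⟨mk p 0 g, rfl⟩

end Pool.Agent.Results.MP_66748c_al.NonHolonomicExtension
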